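import Pool.Agent.K3h5.PZ.Stm

/-! Brick VOL of the project PZ (MP_7322d1_co): the volume is affine in one vertex. -/

set_option autoImplicit false

namespace Pool.Agent.K3h64.PZ

open Pool.Agent.K3h5.PZ Pool.Agent.K3h40.Cyc Finset Matrix MeasureTheory Filter Topology

variable {d : ℕ}

lemma kk_skew (i j : ℕ) : kk j i = -kk i j := by
  unfold kk
  split_ifs <;> omega

/-- the skew form -/
noncomputable def MM (x y : ZMod (d + 3) → ℂ) : ℝ := ∑ j, wdg (Gf x j) (y j)

lemma MM_eq (x y : ZMod (d + 3) → ℂ) : MM x y =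
    (1 / 2) * ∑ j : ZMod (d + 3), ∑ i : ZMod (d + 3), (kk i.val j.val : ℝ) * wdg (x i) (y j) := by
  unfold MM
  rw [Finset.mul_sum]
  refine Finset.sum_congr rfl fun j _ => ?_
  unfold Gf
  have : (1 / 2 : ℂ) = ((1 / 2 : ℝ) : ℂ) := by push_cast; rfl
  rw [this, wdg_real_mul_left, wdg_sum_left]
  congr 1
  refine Finset.sum_congr rfl fun i _ => ?_
  rw [← Complex.ofReal_intCast, wdg_real_mul_left]

lemma MM_symm (x y : ZMod (d + 3) → ℂ) : MM x y = MM y x := by
  rw [MM_eq, MM_eq, Finset.sum_comm]
  congr 1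
  refine Finset.sum_congr rfl fun i _ => Finset.sum_congr rfl fun j _ => ?_
  rw [kk_skew j.val i.val, wdg_comm (y j) (x i)]; push_cast; ring

lemma SS_pert (g : ZMod (d + 3) → ℂ) (u : ℂ) (b : ℝ) (t : ZMod (d + 3) → ℝ)
    (hg : ∑ j, g j = 0) (hgt : ∑ j, ((b : ℂ) * g j - (t j : ℂ) * u) = 0) :
    SS (fun j : ZMod (d + 3) => (b : ℂ) * g j - (t j : ℂ) * u) =
      b ^ 2 * SS g + b * ∑ j, t j * wdg u (Gf g j) := by
  have h1 : QQ (fun j : ZMod (d + 3) => (b : ℂ) * g j - (t j : ℂ) * u) =
      MM (fun j => (b : ℂ) * g j - (t j : ℂ) * u) (fun j => (b : ℂ) * g j - (t j : ℂ) * u) :=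
    QQ_eq _
  have h2 : QQ g = MM g g := QQ_eq _
  rw [QQ_eq_two_SS _ hgt] at h1
  rw [QQ_eq_two_SS _ hg] at h2
  have h3 : MM g (fun j => (t j : ℂ) * u) = -∑ j, t j * wdg u (Gf g j) := by
    unfold MM
    rw [← Finset.sum_neg_distrib]
    refine Finset.sum_congr rfl fun j _ => ?_
    rw [wdg_real_mul_right, wdg_comm]; ring
  have h4 : MM (fun j : ZMod (d + 3) => (b : ℂ) * g j - (t j : ℂ) * u)
      (fun j => (b : ℂ) * g j - (t j : ℂ) * u) = b ^ 2 * MM g g
        - b * MM g (fun j => (t j : ℂ) * u) - b * MM (fun j => (t j : ℂ) * u) g := by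
    rw [MM_eq, MM_eq, MM_eq, MM_eq, ← mul_assoc, ← mul_assoc, ← mul_assoc, Finset.mul_sum,
      Finset.mul_sum, Finset.mul_sum, Finset.mul_sum, ← Finset.sum_sub_distrib,
      ← Finset.sum_sub_distrib]
    refine Finset.sum_congr rfl fun j _ => ?_
    rw [Finset.mul_sum, Finset.mul_sum, Finset.mul_sum, Finset.mul_sum, ← Finset.sum_sub_distrib,
      ← Finset.sum_sub_distrib]
    refine Finset.sum_congr rfl fun i _ => ?_
    simp only [wdg_sub_left, wdg_sub_right, wdg_real_mul_left, wdg_real_mul_right, wdg_self]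
    ring
  rw [MM_symm (fun j => (t j : ℂ) * u) g, h3, ← h2] at h4
  linarith

lemma exists_D {p' : Fin (d + 3) → EE d} (hD' : (gram p').det ≠ 0) (x : Fin (d + 3) → ℂ)
    (hx : ∀ l, ∑ j, (aug p' j l : ℂ) * x j = 0) (hpx : Pos x) :
    ∃ g' : Fin (d + 3) → ℂ, Gale p' g' ∧ ∃ D : ℝ, 0 < D ∧
      ∀ a b, wdg (x a) (x b) = D * wdg (g' a) (g' b) := by
  obtain ⟨g0, h0⟩ := exists_gale p'
  have hre : ∀ l, ∑ j, aug p' j l * (x j).re = 0 := by
    intro l
    have := congrArg Complex.re (hx l)
    rw [Complex.re_sum] at this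
    simpa using this
  have him : ∀ l, ∑ j, aug p' j l * (x j).im = 0 := by
    intro l
    have := congrArg Complex.im (hx l)
    rw [Complex.im_sum] at this
    simpa using this
  obtain ⟨z1, hz1⟩ := ker_eq h0 hD' (fun j => (x j).re) hre
  obtain ⟨z2, hz2⟩ := ker_eq h0 hD' (fun j => (x j).im) him
  have key : ∀ a b, wdg (x a) (x b) = wdg z1 z2 * wdg (g0 a) (g0 b) := by
    intro a b
    have e : wdg (x a) (x b) = (x a).re * (x b).im - (x a).im * (x b).re := rfl
    rw [e]
    have h1 := hz1 a
    have h2 := hz1 b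
    have h3 := hz2 a
    have h4 := hz2 b
    rw [h1, h2, h3, h4]
    unfold wdg; ring
  have hne : wdg z1 z2 ≠ 0 := by
    intro h
    have h01 : (0 : Fin (d + 3)) < 1 := by simp
    have h2 := hpx 0 1 h01
    unfold ee at h2
    rw [wdg_real_mul_left, wdg_real_mul_right, key, h, zero_mul, mul_zero, mul_zero] at h2
    exact lt_irrefl _ h2
  rcases lt_or_gt_of_ne hne with h | h
  · refine ⟨fun i => star (g0 i), h0.conj, -wdg z1 z2, by linarith, fun a b => ?_⟩
    rw [wdg_star, key]; ring
  · exact ⟨g0, h0, wdg z1 z2, h, key⟩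

lemma sum_bet {p : Fin (d + 3) → EE d} (hD : (gram p).det ≠ 0) (δ : EE d) (l : Fin (d + 1)) :
    ∑ a, aug p a l * bet p a δ = (Fin.cons 0 δ.ofLp : Fin (d + 1) → ℝ) l := by
  have hsymm : ∀ l l', gram p l l' = gram p l' l := by
    intro l l'
    unfold Pool.Agent.K3h40.Cyc.gram
    rw [Matrix.mul_apply, Matrix.mul_apply]
    exact Finset.sum_congr rfl fun _ _ => mul_comm _ _
  have hinv : (gram p)⁻¹ * gram p = 1 := Matrix.nonsing_inv_mul _ (isUnit_iff_ne_zero.2 hD)
  have h1 : ∀ k : Fin (d + 1), ∑ a, aug p a l * Bm p a k = if k = l then 1 else 0 := by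
    intro k
    have h2 : ((gram p)⁻¹ * gram p) k l = if k = l then 1 else 0 := by
      rw [hinv, Matrix.one_apply]
    rw [← h2, Matrix.mul_apply]
    unfold Bm
    simp_rw [Finset.mul_sum]
    rw [Finset.sum_comm]
    refine Finset.sum_congr rfl fun l' _ => ?_
    rw [hsymm l' l]
    unfold Pool.Agent.K3h40.Cyc.gram
    rw [Matrix.mul_apply, Finset.mul_sum]
    refine Finset.sum_congr rfl fun a _ => ?_
    rw [Matrix.transpose_apply]; ring
  unfold bet
  simp_rw [Finset.mul_sum]
  rw [Finset.sum_comm]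
  have h3 : ∀ k : Fin d, ∑ a, aug p a l * (Bm p a k.succ * δ k) =
      if k.succ = l then δ k else 0 := by
    intro k
    simp_rw [← mul_assoc]
    rw [← Finset.sum_mul, h1]
    split_ifs <;> simp
  rw [Finset.sum_congr rfl fun k _ => h3 k]
  refine Fin.cases ?_ (fun k => ?_) l
  · simp [Fin.succ_ne_zero]
  · simp [Fin.succ_inj]

lemma aug_update (p : Fin (d + 3) → EE d) (i : Fin (d + 3)) (q : EE d) (j : Fin (d + 3))
    (l : Fin (d + 1)) : aug (Function.update p i q) j l =
      aug p j l + if j = i then (Fin.cons 0 (q - p i).ofLp : Fin (d + 1) → ℝ) l else 0 := by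
  refine Fin.cases ?_ (fun k => ?_) l
  · simp
  · rw [aug_succ, aug_succ]
    by_cases h : j = i
    · subst h
      simp
    · simp [h]

lemma bet_zero (p : Fin (d + 3) → EE d) (a : Fin (d + 3)) : bet p a 0 = 0 := by
  unfold bet; simp

lemma continuous_bet (p : Fin (d + 3) → EE d) (a i : Fin (d + 3)) :
    Continuous fun q : EE d => bet p a (q - p i) := by
  unfold bet
  refine continuous_finsetSum _ fun k _ => continuous_const.mul ?_
  have : Continuous fun q : EE d => (q - p i) k := by
    fun_prop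
  exact this

/-- the rescaled dual of the perturbed configuration -/
noncomputable def gs (p : Fin (d + 3) → EE d) (g : Fin (d + 3) → ℂ) (i : Fin (d + 3)) (q : EE d)
    (j : Fin (d + 3)) : ℂ :=
  ((1 + bet p i (q - p i) : ℝ) : ℂ) * g j - ((bet p j (q - p i) : ℝ) : ℂ) * g i

lemma gs_rel {p : Fin (d + 3) → EE d} {g : Fin (d + 3) → ℂ} (h : Gale p g)
    (hD : (gram p).det ≠ 0) (i : Fin (d + 3)) (q : EE d) (l : Fin (d + 1)) :
    ∑ j, (aug (Function.update p i q) j l : ℂ) * gs p g i q j = 0 := by
  have h1 := h.sum_g l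
  have h2 := congrArg (fun x : ℝ => (x : ℂ)) (sum_bet hD (q - p i) l)
  simp only at h2
  push_cast at h2
  set w : ℝ := (Fin.cons 0 (q - p i).ofLp : Fin (d + 1) → ℝ) l with hw
  have h3 : ∀ j, (aug (Function.update p i q) j l : ℂ) * gs p g i q j =
      ((1 + bet p i (q - p i) : ℝ) : ℂ) * ((aug p j l : ℂ) * g j)
      - ((aug p j l : ℂ) * (bet p j (q - p i) : ℂ)) * g i
      + if j = i then (w : ℂ) * gs p g i q j else 0 := by
    intro j
    rw [aug_update, ← hw]
    unfold gs
    split_ifs
    · push_cast; ring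
    · push_cast; ring
  simp_rw [h3]
  rw [Finset.sum_add_distrib, Finset.sum_sub_distrib, ← Finset.mul_sum, ← Finset.sum_mul, h1, h2,
    Finset.sum_ite_eq' Finset.univ i, if_pos (Finset.mem_univ _)]
  unfold gs
  push_cast
  ring

lemma gs_self (p : Fin (d + 3) → EE d) (g : Fin (d + 3) → ℂ) (i : Fin (d + 3)) (q : EE d) :
    gs p g i q i = g i := by
  unfold gs; push_cast; ring

lemma continuous_gs (p : Fin (d + 3) → EE d) (g : Fin (d + 3) → ℂ) (i j : Fin (d + 3)) :
    Continuous fun q : EE d => gs p g i q j := by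
  unfold gs
  have h1 := continuous_bet p i i
  have h2 := continuous_bet p j i
  exact ((Complex.continuous_ofReal.comp (continuous_const.add h1)).mul continuous_const).sub
    ((Complex.continuous_ofReal.comp h2).mul continuous_const)

lemma gs_at (p : Fin (d + 3) → EE d) (g : Fin (d + 3) → ℂ) (i j : Fin (d + 3)) :
    gs p g i (p i) j = g j := by
  unfold gs
  rw [sub_self, bet_zero, bet_zero]
  push_cast; ring

lemma eventually_pos {p : Fin (d + 3) → EE d} {g : Fin (d + 3) → ℂ} (hpos : Pos g)
    (i : Fin (d + 3)) : ∀ᶠ q in 𝓝 (p i), Pos (gs p g i q) := by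
  unfold Pos
  rw [eventually_all]
  intro a
  rw [eventually_all]
  intro b
  by_cases hab : a < b
  · have hc : Continuous fun q : EE d => wdg (ee (gs p g i q) a) (ee (gs p g i q) b) := by
      unfold wdg ee
      have h1 := continuous_gs p g i a
      have h2 := continuous_gs p g i b
      have h3 : Continuous fun q : EE d => (((-1 : ℝ) ^ a.val : ℝ) : ℂ) * gs p g i q a :=
        continuous_const.mul h1
      have h4 : Continuous fun q : EE d => (((-1 : ℝ) ^ b.val : ℝ) : ℂ) * gs p g i q b :=
        continuous_const.mul h2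
      exact ((Complex.continuous_re.comp h3).mul (Complex.continuous_im.comp h4)).sub
        ((Complex.continuous_im.comp h3).mul (Complex.continuous_re.comp h4))
    have h0 : 0 < wdg (ee (gs p g i (p i)) a) (ee (gs p g i (p i)) b) := by
      have e : gs p g i (p i) = g := funext fun j => gs_at p g i j
      rw [e]
      exact hpos a b hab
    have := hc.continuousAt.eventually (lt_mem_nhds h0)
    exact this.mono fun q hq _ => hq
  · exact Eventually.of_forall fun q h => absurd h hab

lemma continuous_gram (p : Fin (d + 3) → EE d) (i : Fin (d + 3)) :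
    Continuous fun q : EE d => (gram (Function.update p i q)).det := by
  apply Continuous.matrix_det
  unfold Pool.Agent.K3h40.Cyc.gram
  have h : Continuous fun q : EE d => aug (Function.update p i q) := by
    refine continuous_matrix fun j l => ?_
    refine Fin.cases ?_ (fun k => ?_) l
    · simp only [aug_zero]; exact continuous_const
    · simp only [aug_succ]
      by_cases hj : j = i
      · subst hj
        simp only [Function.update_self]
        fun_prop
      · simp only [Function.update_of_ne hj]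
        exact continuous_const
  exact h.matrix_transpose.matrix_mul h

theorem t_VOL : S_VOL := by
  intro d hd hd0 p g h hD hpos i
  have hev1 : ∀ᶠ q in 𝓝 (p i), 0 < 1 + bet p i (q - p i) := by
    have hc : Continuous fun q : EE d => 1 + bet p i (q - p i) :=
      continuous_const.add (continuous_bet p i i)
    have h0 : 0 < 1 + bet p i (p i - p i) := by rw [sub_self, bet_zero]; norm_num
    exact hc.continuousAt.eventually (lt_mem_nhds h0)
  have hev2 := eventually_pos (p := p) hpos i
  have hev3 : ∀ᶠ q in 𝓝 (p i), (gram (Function.update p i q)).det ≠ 0 := by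
    have h0 : (gram (Function.update p i (p i))).det ≠ 0 := by
      rw [Function.update_eq_self]; exact hD
    exact (continuous_gram p i).continuousAt.eventually_ne h0
  filter_upwards [hev1, hev2, hev3] with q hb hposq hDq
  set b : ℝ := 1 + bet p i (q - p i) with hbdef
  set p' := Function.update p i q with hp'
  have hrel : ∀ l, ∑ j, (aug p' j l : ℂ) * gs p g i q j = 0 := fun l => gs_rel h hD i q l
  obtain ⟨g', hg', D, hDpos, hwdg⟩ := exists_D hDq (gs p g i q) hrel hposq
  have hposg' : Pos g' := by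
    intro a c hac
    have h1 := hposq a c hac
    unfold ee at h1 ⊢
    rw [wdg_real_mul_left, wdg_real_mul_right, hwdg] at h1
    rw [wdg_real_mul_left, wdg_real_mul_right]
    by_contra hcon
    push Not at hcon
    have : (-1 : ℝ) ^ a.val * ((-1) ^ c.val * (D * wdg (g' a) (g' c)))
        = D * ((-1 : ℝ) ^ a.val * ((-1) ^ c.val * wdg (g' a) (g' c))) := by ring
    rw [this] at h1
    nlinarith
  have hvol := vol_eq hd hd0 hg' hDq hposg'
  -- determinants
  obtain ⟨c, hci⟩ : ∃ c : Fin (d + 3), i ≠ c := by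
    by_cases h0 : i = 0
    · exact ⟨1, by rw [h0]; simp⟩
    · exact ⟨0, h0⟩
  have hw0 : wdg (g i) (g c) ≠ 0 := by
    rcases lt_or_gt_of_ne hci with hlt | hlt
    · have h1 := hpos i c hlt
      unfold ee at h1
      rw [wdg_real_mul_left, wdg_real_mul_right] at h1
      intro h2
      rw [h2, mul_zero, mul_zero] at h1
      exact lt_irrefl _ h1
    · have h1 := hpos c i hlt
      unfold ee at h1
      rw [wdg_real_mul_left, wdg_real_mul_right, wdg_comm] at h1
      intro h2
      rw [h2, neg_zero, mul_zero, mul_zero] at h1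
      exact lt_irrefl _ h1
  obtain ⟨ε, hε0, hε1⟩ := exists_enum i c hci
  have hmin : (fun k => p' (ε (Sum.inl k))) = fun k => p (ε (Sum.inl k)) := by
    funext k
    rw [hp', Function.update_of_ne]
    intro hk
    rw [← hε0] at hk
    have := ε.injective hk
    simp at this
  have hd1 := abs_det_eq h hD ε
  have hd2 := abs_det_eq hg' hDq ε
  rw [hmin, hd1, hε0, hε1] at hd2
  have hgw : D * wdg (g' i) (g' c) = b * wdg (g i) (g c) := by
    rw [← hwdg, gs_self]
    unfold gs
    rw [wdg_sub_right, wdg_real_mul_right, wdg_real_mul_right, wdg_self, mul_zero, sub_zero]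
  have hkey : D * Real.sqrt (gram p).det = b * Real.sqrt (gram p').det := by
    have h1 : D * |wdg (g' i) (g' c)| = b * |wdg (g i) (g c)| := by
      have e1 : |D * wdg (g' i) (g' c)| = |b * wdg (g i) (g c)| := by rw [hgw]
      rwa [abs_mul, abs_mul, abs_of_pos hDpos, abs_of_pos hb] at e1
    have h2 : 0 < |wdg (g i) (g c)| := abs_pos.2 hw0
    have h3 : (D * Real.sqrt (gram p).det) * |wdg (g i) (g c)|
        = (b * Real.sqrt (gram p').det) * |wdg (g i) (g c)| := by
      calc (D * Real.sqrt (gram p).det) * |wdg (g i) (g c)|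
          = D * (Real.sqrt (gram p).det * |wdg (g i) (g c)|) := by ring
        _ = D * (Real.sqrt (gram p').det * |wdg (g' i) (g' c)|) := by rw [hd2]
        _ = Real.sqrt (gram p').det * (D * |wdg (g' i) (g' c)|) := by ring
        _ = (b * Real.sqrt (gram p').det) * |wdg (g i) (g c)| := by rw [h1]; ring
    exact mul_right_cancel₀ h2.ne' h3
  have hSS : SS (d := d) (gs p g i q) = D * SS (d := d) g' := by
    unfold SS
    rw [mul_neg, Finset.mul_sum]
    congr 1
    refine Finset.sum_congr rfl fun a _ => ?_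
    rw [Finset.mul_sum]
    refine Finset.sum_congr rfl fun c _ => ?_
    rw [mul_ite, mul_zero]
    congr 1
    exact hwdg a c
  have hsum0 : ∑ j, gs p g i q j = 0 := by
    have := hrel 0
    simpa using this
  have hpert : SS (d := d) (gs p g i q) =
      b ^ 2 * SS (d := d) g + b * ∑ j : Fin (d + 3), bet p j (q - p i) * wdg (g i) (Gf (d := d) g j) :=
    SS_pert (d := d) g (g i) b (fun j => bet p j (q - p i)) h.sum hsum0
  have hfin : b * volume.real (convexHull ℝ (Set.range p')) =
      b * (cv d * Real.sqrt (gram p).det * (SS (d := d) g + dV p g i (q - p i))) := by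
    rw [hvol]
    have e1 : b * (cv d * Real.sqrt (gram p').det * SS (d := d) g')
        = cv d * (b * Real.sqrt (gram p').det) * SS (d := d) g' := by ring
    rw [e1, ← hkey]
    have e2 : cv d * (D * Real.sqrt (gram p).det) * SS (d := d) g'
        = cv d * Real.sqrt (gram p).det * (D * SS (d := d) g') := by ring
    rw [e2, ← hSS, hpert]
    unfold dV
    rw [hbdef]
    ring
  exact mul_left_cancel₀ hb.ne' hfin

end Pool.Agent.K3h64.PZ
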